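import Mathlib
import Pool.Agent.H46.ET.Level

set_option autoImplicit false

namespace Pool.Agent.Results.MP_12a1af_nt.ThinBasis

open Finset Filter Pool.Agent.H46.ET

lemma ev (C ρ : ℝ) (h0 : 0 ≤ ρ) (h1 : ρ < 1) : ∀ᶠ j : ℕ in atTop, C * ((j + 2) * ρ ^ j) ≤ 1 := by
  have a1 := tendsto_pow_const_mul_const_pow_of_abs_lt_one 1 (r := ρ) (by rwa [abs_of_nonneg h0])
  have a2 := (tendsto_pow_atTop_nhds_zero_of_lt_one h0 h1).const_mul 2
  have a3 := (a1.add a2).const_mul C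
  simp only [mul_zero, add_zero] at a3
  filter_upwards [a3.eventually (ge_mem_nhds zero_lt_one)] with j hj
  refine le_trans (le_of_eq ?_) hj
  ring

lemma conds : ∃ j0 : ℕ, ∀ j ≥ j0, 2 ≤ j ∧ (T j).card * Real.exp (-(20 * j)) ≤ 1 / 10 ∧
    ((j : ℝ) + 1) / 2 * Real.exp ((j + 1) / 2) * 2400 ≤ 4 ^ j := by
  have e1 : (2.7 : ℝ) ≤ Real.exp 1 := le_trans (by norm_num) Real.exp_one_gt_d9.le
  have e2 : Real.exp 1 ≤ 3 := Real.exp_one_lt_d9.le.trans (by norm_num)
  have e3 : Real.exp (1 / 2) ≤ 3 := (Real.exp_le_exp.mpr (by norm_num)).trans e2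
  have e4 : (4 : ℝ) ^ 12 * Real.exp (-20) < 1 := by
    have : (2.7 : ℝ) ^ 20 ≤ Real.exp 20 := by
      rw [show (20 : ℝ) = (20 : ℕ) * 1 by norm_num, Real.exp_nat_mul]; gcongr
    rw [Real.exp_neg, ← div_eq_mul_inv, div_lt_one (Real.exp_pos _)]
    exact lt_of_lt_of_le (by norm_num) this
  refine eventually_atTop.mp ?_
  filter_upwards [eventually_ge_atTop 2, ev (10 * 2 ^ 31) _ (by positivity) e4,
    ev 3600 (3 / 4) (by norm_num) (by norm_num)] with j h1 h2 h3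
  refine ⟨h1, ?_, ?_⟩
  · rw [T_card, show -(20 * (j : ℝ)) = j * (-20) by ring, Real.exp_nat_mul, pow_mul]
    rw [mul_pow] at h2
    generalize ((4 : ℝ) ^ 12) ^ j = x at h2 ⊢
    generalize Real.exp (-20) ^ j = y at h2 ⊢
    linarith
  · rw [show ((j : ℝ) + 1) / 2 = ((j + 1 : ℕ) : ℝ) * (1 / 2) by push_cast; ring, Real.exp_nat_mul]
    rw [div_pow, ← mul_div_assoc, ← mul_div_assoc, div_le_one (by positivity)] at h3
    refine le_trans ?_ h3
    calc _ ≤ ((j + 1 : ℕ) : ℝ) * (1 / 2) * 3 ^ (j + 1) * 2400 := by gcongr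
      _ = 3600 * ((j + 1) * 3 ^ j) := by push_cast; ring
      _ ≤ _ := by gcongr; norm_num

lemma levels : ∃ (j0 : ℕ) (S A : ℕ → Finset ℤ), 2 ≤ j0 ∧ (∀ i, Lev (j0 + i) (S i) (A i)) ∧
    ∀ i i', i' < i → A i' ⊆ S i := by
  obtain ⟨q, G, h⟩ := exists_par
  obtain ⟨j0, hj⟩ := conds
  have st : ∀ (i : ℕ) (S : {S // Inv q G (j0 + i) S}), ∃ A, Lev (j0 + i) S.1 A ∧
      Inv q G (j0 + i + 1) (S.1 ∪ A) := fun i S =>
    step h _ (hj _ (by omega)).1 S.1 S.2 (hj _ (by omega)).2.1 (hj _ (by omega)).2.2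
  choose f hf1 hf2 using st
  let S : (i : ℕ) → {S // Inv q G (j0 + i) S} := fun i =>
    Nat.rec ⟨∅, inv_empty h _⟩ (fun i S => ⟨S.1 ∪ f i S, hf2 i S⟩) i
  have hS : ∀ i, (S (i + 1)).1 = (S i).1 ∪ f i (S i) := fun i => rfl
  refine ⟨j0, fun i => (S i).1, fun i => f i (S i), (hj j0 le_rfl).1, fun i => hf1 i _, ?_⟩
  intro i
  induction i with
  | zero => intro i' hi; omega
  | succ i ih =>
    intro i' hi
    simp only [hS]
    rcases Nat.lt_succ_iff_lt_or_eq.mp hi with h1 | rfl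
    · exact (ih i' h1).trans subset_union_left
    · exact subset_union_right

lemma anal (n J j : ℕ) (hJ : 20 ≤ J) (h1 : 2 ^ (20 * J) ≤ n) (h2 : n < 2 ^ (20 * J + 20))
    (hj : j ≤ J) (hj2 : J ≤ j + 1) :
    (j : ℝ) / Real.log j ≤ 2 * (Real.log n / Real.log (Real.log n)) ∧
      1 ≤ Real.log n / Real.log (Real.log n) := by
  have hJ' : (20 : ℝ) ≤ J := by exact_mod_cast hJ
  have l1 := Real.log_two_gt_d9
  have l2 := Real.log_two_lt_d9
  have hn : (0 : ℝ) < n := by exact_mod_cast lt_of_lt_of_le (by positivity) h1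
  have a1 : (20 * J : ℕ) * Real.log 2 ≤ Real.log n := by
    rw [← Real.log_pow]
    exact Real.log_le_log (by positivity) (by exact_mod_cast h1)
  have a2 : Real.log n ≤ (20 * J + 20 : ℕ) * Real.log 2 := by
    rw [← Real.log_pow]
    exact Real.log_le_log hn (by exact_mod_cast h2.le)
  push_cast at a1 a2
  have c1 : (j : ℝ) ≤ J := by exact_mod_cast hj
  have c2 : (J : ℝ) ≤ j + 1 := by exact_mod_cast hj2
  clear h1 h2 hj hj2 hJ
  have a3 : (20 * J : ℝ) * (1 / 2) ≤ 20 * J * Real.log 2 := by gcongr; linarith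
  have a4 : (20 * J + 20 : ℝ) * Real.log 2 ≤ (20 * J + 20) * (7 / 10) := by gcongr; linarith
  have b1 : (J : ℝ) ≤ Real.log n := by linarith
  have a5 : (19 : ℝ) * j ≤ j * j := by gcongr; linarith
  have b2 : Real.log n ≤ (j : ℝ) ^ 2 := by rw [sq]; linarith
  have b3 : 0 < Real.log (Real.log n) := Real.log_pos (by linarith)
  have b4 : Real.log (Real.log n) ≤ 2 * Real.log j := by
    have := Real.log_le_log (by linarith) b2
    rwa [Real.log_pow] at this
  constructor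
  · rw [← mul_div_assoc, div_le_div_iff₀ (by linarith) b3]
    calc _ ≤ Real.log n * (2 * Real.log j) := by gcongr <;> linarith
      _ = _ := by ring
  · rw [le_div_iff₀ b3, one_mul]
    have := Real.log_le_sub_one_of_pos (show 0 < Real.log n by linarith)
    linarith

theorem result : ∃ (A : Set ℕ) (C : ℝ) (N : ℕ), ∀ n : ℕ, N ≤ n →
    (∃ a ∈ A, ∃ b ∈ A, a + b = n) ∧
    (({p : ℕ × ℕ | p.1 ∈ A ∧ p.2 ∈ A ∧ p.1 + p.2 = n} : Set (ℕ × ℕ)).ncard : ℝ) ≤
      C * (Real.log n / Real.log (Real.log n)) := by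
  classical
  obtain ⟨j0, S, A, hj0, hL, hS⟩ := levels
  have hD := D0_pos
  refine ⟨{a | ∃ i, (a : ℤ) ∈ A i}, 2 * (2 ^ 30 * D0 + 4 * (10 ^ 8 * D0)),
    2 ^ (20 * (j0 + 21)), fun n hn => ?_⟩
  have hn0 : n ≠ 0 := (lt_of_lt_of_le (by positivity) hn).ne'
  have p4 : ∀ j : ℕ, (4 : ℤ) ^ (10 * j) = 2 ^ (20 * j) := fun j => by
    rw [show (4 : ℤ) = 2 ^ 2 by norm_num, ← pow_mul]; ring_nf
  have hlog : 20 * (j0 + 21) ≤ Nat.log 2 n := Nat.le_log_of_pow_le (by norm_num) hn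
  have g1 : 2 ^ Nat.log 2 n ≤ n := Nat.pow_log_le_self 2 hn0
  have g2 : n < 2 ^ (Nat.log 2 n + 1) := Nat.lt_pow_succ_log_self (by norm_num) n
  constructor
  · obtain ⟨i, hi⟩ : ∃ i, (Nat.log 2 n - 10) / 20 = j0 + i := ⟨_, (Nat.add_sub_cancel' (by omega)).symm⟩
    obtain ⟨a, ha, hb⟩ := (hL i).2.1 n (by
        rw [p4, ← pow_add]
        exact_mod_cast (Nat.pow_le_pow_right (by norm_num) (by omega)).trans g1) (by
        rw [p4, ← pow_add]
        exact_mod_cast g2.trans_le (Nat.pow_le_pow_right (by norm_num) (by omega)))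
    have a0 := (mem_I ((hL i).1 ha)).1
    have b0 := (mem_I ((hL i).1 hb)).1
    refine ⟨a.toNat, ⟨i, by rwa [Int.toNat_of_nonneg a0]⟩, (n - a).toNat,
      ⟨i, by rwa [Int.toNat_of_nonneg b0]⟩, by omega⟩
  · obtain ⟨i, hi⟩ : ∃ i, Nat.log 2 n / 20 = j0 + i + 1 :=
      ⟨Nat.log 2 n / 20 - j0 - 1, by omega⟩
    set U : ℕ → Finset ℤ := fun k => (fl (A k) fun a => n - a ∈ A k) ∪
      ((fl (A k) fun a => n - a ∈ S k) ∪ (fl (A k) fun a => n - a ∈ S k).image fun a => n - a)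
      with hU
    have hmax : ∀ (k k' : ℕ) (a b : ℤ), k' ≤ k → a ∈ A k → b ∈ A k' → a + b = n →
        k = i ∨ k = i + 1 := by
      intro k k' a b hk ha hb hab
      have a1 := mem_Ico.mp ((hL k).1 ha)
      have b1 := mem_I ((hL k').1 hb)
      have b2 : (4 : ℤ) ^ (10 * (j0 + k')) ≤ 4 ^ (10 * (j0 + k)) :=
        pow_le_pow_right₀ (by norm_num) (by omega)
      have c1 : (4 : ℤ) ^ (10 * (j0 + k)) ≤ n := by omega
      have c2 : (n : ℤ) < 2 ^ 31 * 4 ^ (10 * (j0 + k)) := by omega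
      rw [p4] at c1
      rw [p4, ← pow_add] at c2
      have d1 : 2 ^ (20 * (j0 + k)) < 2 ^ (Nat.log 2 n + 1) :=
        lt_of_le_of_lt (by exact_mod_cast c1) g2
      have d2 : 2 ^ Nat.log 2 n < 2 ^ (31 + 20 * (j0 + k)) :=
        lt_of_le_of_lt g1 (by exact_mod_cast c2)
      rw [Nat.pow_lt_pow_iff_right (by norm_num)] at d1 d2
      omega
    have hsub : ({p : ℕ × ℕ | p.1 ∈ {a : ℕ | ∃ i, (a : ℤ) ∈ A i} ∧
        p.2 ∈ {a : ℕ | ∃ i, (a : ℤ) ∈ A i} ∧ p.1 + p.2 = n} : Set (ℕ × ℕ)).ncard ≤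
        (U i ∪ U (i + 1)).card := by
      rw [← Set.ncard_coe_finset]
      refine Set.ncard_le_ncard_of_injOn (fun p => (p.1 : ℤ)) ?_ ?_ (finite_toSet _)
      · rintro ⟨a, b⟩ ⟨⟨k, ha⟩, ⟨k', hb⟩, hab⟩
        simp only at ha hb hab
        have hab' : (a : ℤ) + b = n := by exact_mod_cast hab
        have eb : (n : ℤ) - a = b := by omega
        have ea : (n : ℤ) - b = a := by omega
        have fin : ∀ l, (l = i ∨ l = i + 1) → (a : ℤ) ∈ U l → (a : ℤ) ∈ U i ∪ U (i + 1) := by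
          rintro l (rfl | rfl) h
          exacts [mem_union_left _ h, mem_union_right _ h]
        simp only [mem_coe]
        rcases lt_trichotomy k k' with hk | rfl | hk
        · refine fin k' (hmax k' k b a hk.le hb ha (by omega)) ?_
          simp only [hU, mem_union, mem_image, mem_fl]
          exact Or.inr (Or.inr ⟨b, ⟨hb, ea ▸ hS _ _ hk ha⟩, ea⟩)
        · refine fin k (hmax k k a b le_rfl ha hb hab') ?_
          simp only [hU, mem_union, mem_fl]
          exact Or.inl ⟨ha, eb ▸ hb⟩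
        · refine fin k (hmax k k' a b hk.le ha hb hab') ?_
          simp only [hU, mem_union, mem_fl]
          exact Or.inr (Or.inl ⟨ha, eb ▸ hS _ _ hk hb⟩)
      · rintro ⟨a, b⟩ ⟨-, -, h1⟩ ⟨a', b'⟩ ⟨-, -, h2⟩ h3
        simp only [Nat.cast_inj] at h1 h2 h3
        simp only [Prod.mk.injEq]
        omega
    have hUc : ∀ k, (k = i ∨ k = i + 1) → ((U k).card : ℝ) ≤
        (2 ^ 30 * D0 + 4 * (10 ^ 8 * D0)) * (Real.log n / Real.log (Real.log n)) := by
      intro k hk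
      obtain ⟨u1, u2⟩ := anal n (j0 + i + 1) (j0 + k) (by omega)
        ((Nat.pow_le_pow_right (by norm_num) (by omega)).trans g1)
        (g2.trans_le (Nat.pow_le_pow_right (by norm_num) (by omega))) (by omega) (by omega)
      have v1 := (hL k).2.2.1 n
      have v2 := (hL k).2.2.2 n
      have v3 : (U k).card ≤ (fl (A k) fun a => n - a ∈ A k).card +
          ((fl (A k) fun a => n - a ∈ S k).card + (fl (A k) fun a => n - a ∈ S k).card) :=
        (card_union_le _ _).trans (Nat.add_le_add_left ((card_union_le _ _).trans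
          (Nat.add_le_add_left card_image_le _)) _)
      have v4 : ((U k).card : ℝ) ≤ _ := Nat.cast_le.mpr v3
      rw [Nat.cast_add, Nat.cast_add] at v4
      rw [mul_div_assoc] at v2
      have v5 : 10 ^ 8 * D0 * (((j0 + k : ℕ) : ℝ) / Real.log (j0 + k : ℕ)) ≤
          10 ^ 8 * D0 * (2 * (Real.log n / Real.log (Real.log n))) := by gcongr
      have v6 : 2 ^ 30 * D0 * 1 ≤ 2 ^ 30 * D0 * (Real.log n / Real.log (Real.log n)) := by gcongr
      linarith
    have w1 := hUc i (Or.inl rfl)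
    have w2 := hUc (i + 1) (Or.inr rfl)
    have w3 := Nat.cast_le (α := ℝ).mpr (hsub.trans (card_union_le _ _))
    rw [Nat.cast_add] at w3
    linarith

end Pool.Agent.Results.MP_12a1af_nt.ThinBasis
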